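import Pool.Agent.U798.GD.ASY
import Pool.Agent.U115.GD.StmK

/-! GDK-ASY of project GDK (helper115), by helper958: the final asymptotics for the corank `d`
(port of `Pool.Agent.U798.GD.ASY`, whose error terms are used). -/

set_option autoImplicit false

open scoped Classical
open Finset Filter

namespace Pool.Agent.U958.GD

open Pool.Agent.Y703.CX (sm la jj XX eL zz kk S_SIE eL_tendsto logX_eq rpow_eL HH NN ev_eL one_le_exp
  HH_ge HH_le HH_pos kk_ge kk_le X_pos one_add_log lin_le kap zz_ge zz_pos kap_nonneg kap_pow kap_le)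
open Pool.Agent.Y703.CQ (nr S_EQ S_LA c2 S_BIL S_C2 S_SYM Sml sml_of sml_add sml_rpow cmp)
open Pool.Agent.U115.GD
open Pool.Agent.U798.GD

theorem one_le_prod (k : ℕ) : (1 : ℝ) ≤ ∏ i ∈ range k, ((2 : ℝ) ^ (i + 1) - 1) := by
  refine le_trans (le_of_eq (Finset.prod_const_one (s := range k)).symm)
    (Finset.prod_le_prod (fun _ _ => zero_le_one) fun i _ => ?_)
  have : (2 : ℝ) ≤ 2 ^ (i + 1) := by
    calc (2 : ℝ) = 2 ^ 1 := (pow_one _).symm
      _ ≤ 2 ^ (i + 1) := pow_le_pow_right₀ (by norm_num) (by omega)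
  linarith

theorem ck_nonneg (hc2 : S_C2) (k : ℕ) : 0 ≤ ck k :=
  div_nonneg hc2.2.1.le (zero_le_one.trans (one_le_prod k))

theorem ck_le (hc2 : S_C2) (k : ℕ) : ck k ≤ 1 := by
  unfold ck
  rw [div_le_one (lt_of_lt_of_le one_pos (one_le_prod k))]
  exact hc2.2.2.1.le.trans (one_le_prod k)

theorem t_DQK (h1 : S_BIL) (h3 : S_EQ) (hsy : S_SYM) (hc2 : S_C2) (h4 : S_LAK) (h5 : S_BOXK)
    (hK : S_KEYK) (hC : CntP) (hS : S_SIE) (hH : S_HAL) (hB : S_BAD) (hF : S_FEW) (hM : S_MER)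
    (hCh : S_CHE) (hD : S_DA) (hLo : S_LOW) : S_DQK := by
  intro G f d hO
  obtain ⟨C₀, hC₀, hLA⟩ := h4 hsy hc2 d
  obtain ⟨C, hC1, hkey⟩ := hK h1 h3 h5 d C₀ hC₀ hLA
  have hC₀p : 0 < C₀ := by linarith
  obtain ⟨dB, CB, XB, hdB, hbad⟩ := hB hS hH hM hD G hO
  obtain ⟨c, X₀, hc, hlow⟩ := hLo hM hCh G hO
  have hdp := dl_pos hO hD
  rw [Metric.tendsto_nhds]
  intro ε hε
  obtain ⟨V, hV⟩ := exists_pow_lt_of_lt_one (show (0 : ℝ) < ε / (2 * C₀) by positivity)
    (show (1 / 2 : ℝ) < 1 by norm_num)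
  obtain ⟨dF, CF, XF, hdF, hfew⟩ := hF hS hM hD G V hO
  have s1 := sml_many hO (t := 1 - dl G) (by linarith) hC
  have s2 := sml_cut hO (t := 1 - dl G) (by linarith) hC
  have s3 := sml_coll hO (t := 1 - dl G) (by linarith) hC
  have s4 := sml_rpow (t := 1 - dl G) (by linarith) hfew
  have s5 := sml_rpow (t := 1 - dl G) (by linarith) hbad
  have s6 := sml_main hC1 G.Q (t := 1 - dl G) (by linarith)
  have s := sml_add (sml_add (sml_add (sml_add (sml_add s1 s2) s3) s4) s5) s6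
  have hδ : (0 : ℝ) < c * ε / 4 := by positivity
  filter_upwards [s (c * ε / 4) hδ, ev_eL 1, eventually_ge_atTop X₀] with X hX hl hX0
  have hl0 : 0 < eL X := by linarith
  have hlo := hlow X hX0
  have e00 : (-1 + dl G : ℝ) = -(1 - dl G) := by ring
  rw [e00, rpow_eL hl0] at hlo
  have hXp := X_pos hl0
  have hXp' : (0 : ℝ) < X := by exact_mod_cast hXp
  have hSpos : (0 : ℝ) < ((SS G X).card : ℝ) := by
    refine lt_of_lt_of_le ?_ hlo
    positivity
  have hN : (HH X : ℝ) * Real.log X < NN X := by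
    unfold NN
    push_cast
    exact Nat.lt_floor_add_one _
  have hmain := hkey G f X (zz X) (HH X) (kk X) V (NN X) (kap C X) hO hXp (HH_pos hl0) (zz_pos hl)
    (kap_nonneg hC1 X) (kap_pow hC1 hl) hN
  set T := (RR G X (zz X) (HH X) (kk X) V).filter fun S => Nd G (sm (zz X) S) (la (zz X) S) with hT
  have hTG : (RR G X (zz X) (HH X) (kk X) V).filter
      (fun S => Nd G (sm (zz X) S) (la (zz X) S) ∧ GdK G f d S) = T.filter (GdK G f d) := by
    rw [hT, filter_filter]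
  rw [hTG] at hmain
  have hTS : T ⊆ SS G X := (filter_subset _ _).trans (filter_subset _ _)
  have hRS : ((RR G X (zz X) (HH X) (kk X) V).card : ℝ) ≤ ((SS G X).card : ℝ) := by
    exact_mod_cast card_le_card (filter_subset _ _)
  have hcmp := cmp (GdK G f d) T (SS G X) hTS (ck d) (ck_nonneg hc2 d) (ck_le hc2 d)
  have hout : ((SS G X \ T).card : ℝ) ≤
      ((((SS G X).filter fun S => kk X < S.card).card : ℝ) +
      (((SS G X).filter fun S => S.card ≤ kk X ∧
        X < (∏ p ∈ sm (zz X) S, p) * ∏ p ∈ la (zz X) S, XX (HH X) (jj (HH X) p)).card : ℝ) +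
      (((SS G X).filter fun S => ¬ Set.InjOn (jj (HH X)) (la (zz X) S : Set ℕ)).card : ℝ) +
      (((SS G X).filter fun S => ((la (zz X) S).filter fun p => Hc G p).card ≤
        2 * (sm (zz X) S).card + V ∨ ∀ p ∈ la (zz X) S, Hc G p).card : ℝ)) +
      (((SS G X).filter fun S => S.card ≤ kk X ∧ ¬ Nd G (sm (zz X) S) (la (zz X) S)).card : ℝ) := by
    have g := card_le_card (out_sub G X (zz X) (HH X) (kk X) V)
    rw [← hT] at g
    have g2 := (g.trans (card_union_le _ _)).trans (Nat.add_le_add_right ((card_union_le _ _).trans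
      (Nat.add_le_add_right ((card_union_le _ _).trans
      (Nat.add_le_add_right (card_union_le _ _) _)) _)) _)
    exact_mod_cast g2
  have htot : |(((SS G X).filter (GdK G f d)).card : ℝ) - ck d * ((SS G X).card : ℝ)| ≤
      C₀ * (1 / 2 : ℝ) ^ V * ((SS G X).card : ℝ) +
        c * ε / 4 * (X * Real.exp (-(1 - dl G) * eL X)) := by
    have g1 : C₀ * (1 / 2 : ℝ) ^ V * ((RR G X (zz X) (HH X) (kk X) V).card : ℝ) ≤
        C₀ * (1 / 2 : ℝ) ^ V * ((SS G X).card : ℝ) := mul_le_mul_of_nonneg_left hRS (by positivity)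
    linarith
  rw [Real.dist_eq]
  have e3 : (((SS G X).filter (GdK G f d)).card : ℝ) / ((SS G X).card : ℝ) - ck d =
      ((((SS G X).filter (GdK G f d)).card : ℝ) - ck d * ((SS G X).card : ℝ)) /
        ((SS G X).card : ℝ) := by
    field_simp
  rw [e3, abs_div, abs_of_pos hSpos, div_lt_iff₀ hSpos]
  refine lt_of_le_of_lt htot ?_
  have g2 : c * ε / 4 * (X * Real.exp (-(1 - dl G) * eL X)) ≤ ε / 4 * ((SS G X).card : ℝ) := by
    calc c * ε / 4 * (X * Real.exp (-(1 - dl G) * eL X)) =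
          ε / 4 * (c * X * Real.exp (-(1 - dl G) * eL X)) := by ring
      _ ≤ _ := mul_le_mul_of_nonneg_left hlo (by linarith)
  have g3 : C₀ * (1 / 2 : ℝ) ^ V * ((SS G X).card : ℝ) ≤ ε / 2 * ((SS G X).card : ℝ) := by
    have g5 : C₀ * (1 / 2 : ℝ) ^ V ≤ ε / 2 := by
      calc C₀ * (1 / 2 : ℝ) ^ V ≤ C₀ * (ε / (2 * C₀)) := by gcongr
        _ = ε / 2 := by field_simp
    exact mul_le_mul_of_nonneg_right g5 hSpos.le
  have g4 : 0 < ε * ((SS G X).card : ℝ) := by positivity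
  linarith

end Pool.Agent.U958.GD
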